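import Mathlib

/-!
# Non-polytopal symmetric spheres with `2n+4` vertices

For every `n ≥ 4` we construct a symmetric `n`-sphere with exactly `2n+4` vertices which is not
isomorphic to the boundary complex of any centrally symmetric `(n+1)`-polytope.

The sphere is the Bier sphere of a self-dual simplicial complex on `n+2` points: the family of
all sets containing none of the ten triangles of the six-vertex projective plane (on the first
six points; the other points are dummy points).
-/

namespace Pool.Agent.Results.MP_ca8007_co.NonPolytopalSymmetric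

open Finset

section Definitions

variable {V : Type*} [DecidableEq V]

/-- The boundary complex of the simplex with vertex set `σ`: all nonempty proper subsets. -/
def simplexBoundary (σ : Finset V) : PreAbstractSimplicialComplex V where
  faces := {F | F.Nonempty ∧ F ⊂ σ}
  isRelLowerSet_faces := fun _ h => ⟨h.1, fun _ hG hne => ⟨hne, lt_of_le_of_lt hG h.2⟩⟩

/-- The (elementary) stellar subdivision of `K` at the face `A`, with new vertex `w`:
the faces containing `A` are removed and replaced by the cone with apex `w` over the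
faces `G` with `A ⊄ G` and `G ∪ A ∈ K`. -/
def stellar (K : PreAbstractSimplicialComplex V) (A : Finset V) (w : V) :
    PreAbstractSimplicialComplex V where
  faces := {F | F ∈ K.faces ∧ ¬ A ⊆ F} ∪ {F | w ∈ F ∧ ¬ A ⊆ F.erase w ∧ F.erase w ∪ A ∈ K.faces}
  isRelLowerSet_faces := by
    rintro F (⟨hF, hA⟩ | ⟨hw, hA, hF⟩)
    · exact ⟨(K.isRelLowerSet_faces hF).1, fun G hG hne =>
        Or.inl ⟨(K.isRelLowerSet_faces hF).2 hG hne, fun h => hA (h.trans hG)⟩⟩
    · refine ⟨⟨w, hw⟩, fun G hG hne => ?_⟩
      have hG' : G ⊆ F := hG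
      by_cases hwG : w ∈ G
      · refine Or.inr ⟨hwG, fun h => hA (h.trans (erase_subset_erase _ hG')), ?_⟩
        refine (K.isRelLowerSet_faces hF).2 ?_ ?_
        · exact union_subset_union (erase_subset_erase _ hG') (Subset.refl _)
        · by_contra hcon
          rw [not_nonempty_iff_eq_empty, union_eq_empty] at hcon
          exact hA (by rw [hcon.2]; exact empty_subset _)
      · have hsub : G ⊆ F.erase w := fun x hx =>
          mem_erase.mpr ⟨fun h => hwG (h ▸ hx), hG' hx⟩
        exact Or.inl ⟨(K.isRelLowerSet_faces hF).2 (hsub.trans subset_union_left) hne,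
          fun h => hA (h.trans hsub)⟩

/-- `L` is obtained from `K` by one elementary stellar subdivision: at some face `A` of `K`,
with some new vertex `w`. -/
def StellarStep (K L : PreAbstractSimplicialComplex V) : Prop :=
  ∃ A ∈ K.faces, ∃ w : V, {w} ∉ K.faces ∧ L = stellar K A w

/-- `K` can be transformed into `L` by finitely many steps, each a stellar subdivision or the
inverse of one. -/
def StellarReachable (K L : PreAbstractSimplicialComplex V) : Prop :=
  Relation.ReflTransGen (fun K L => StellarStep K L ∨ StellarStep L K) K L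

end Definitions

/-- A combinatorial `n`-sphere (vertices labelled by natural numbers): a complex reachable from
the boundary complex of an `(n+1)`-simplex by finitely many stellar subdivisions and inverses of
stellar subdivisions. -/
def IsCombinatorialSphere (n : ℕ) (S : PreAbstractSimplicialComplex ℕ) : Prop :=
  ∃ σ : Finset ℕ, σ.card = n + 2 ∧ StellarReachable (simplexBoundary σ) S

/-- `S` with the map `φ` is a symmetric `n`-sphere: `S` is a combinatorial `n`-sphere, `φ` is a
simplicial involution of `S`, and `φ F ∩ F = ∅` for every face `F` of `S`. -/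
structure IsSymmetricSphere (n : ℕ) (S : PreAbstractSimplicialComplex ℕ) (φ : ℕ → ℕ) : Prop where
  sphere : IsCombinatorialSphere n S
  map_face : ∀ F ∈ S.faces, F.image φ ∈ S.faces
  involutive : ∀ v, {v} ∈ S.faces → φ (φ v) = v
  free : ∀ F ∈ S.faces, Disjoint (F.image φ) F

/-- `P` is a centrally symmetric `d`-dimensional convex polytope in `ℝ^d`. -/
structure IsCSPolytope {d : ℕ} (P : Set (EuclideanSpace ℝ (Fin d))) : Prop where
  polytope : ∃ s : Finset (EuclideanSpace ℝ (Fin d)), P = convexHull ℝ (s : Set _)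
  full_dim : (interior P).Nonempty
  symm : ∀ x ∈ P, -x ∈ P

/-- `S` is isomorphic to the boundary complex of the polytope `P`: there is a bijection `g` from
the vertices of `S` onto the vertices of `P` such that a nonempty set `F` of vertices of `S` is a
face of `S` if and only if `g F` is the vertex set of a (nonempty) proper face of `P`. -/
def IsoToBoundary {d : ℕ} (S : PreAbstractSimplicialComplex ℕ)
    (P : Set (EuclideanSpace ℝ (Fin d))) : Prop :=
  ∃ g : ℕ → EuclideanSpace ℝ (Fin d),
    Set.BijOn g {v | {v} ∈ S.faces} (P.extremePoints ℝ) ∧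
    ∀ F : Finset ℕ, F.Nonempty → (∀ v ∈ F, {v} ∈ S.faces) →
      (F ∈ S.faces ↔ ∃ Q : Set (EuclideanSpace ℝ (Fin d)),
        IsExposed ℝ P Q ∧ Q.Nonempty ∧ Q ≠ P ∧ g '' F = P.extremePoints ℝ ∩ Q)

section Bier

variable {ι : Type*} [Fintype ι] [DecidableEq ι]

/-- Vertices `i⁺`, `i⁻` and one auxiliary vertex. -/
abbrev Vx (ι : Type*) := Option (ι ⊕ ι)

/-- The positive part of a face. -/
def pos (F : Finset (Vx ι)) : Finset ι := univ.filter fun i => some (Sum.inl i) ∈ F

/-- The negative part of a face. -/
def neg (F : Finset (Vx ι)) : Finset ι := univ.filter fun i => some (Sum.inr i) ∈ F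

@[simp] theorem mem_pos {F : Finset (Vx ι)} {i : ι} : i ∈ pos F ↔ some (Sum.inl i) ∈ F := by
  simp [pos]

@[simp] theorem mem_neg {F : Finset (Vx ι)} {i : ι} : i ∈ neg F ↔ some (Sum.inr i) ∈ F := by
  simp [neg]

theorem pos_mono {F G : Finset (Vx ι)} (h : F ⊆ G) : pos F ⊆ pos G := fun i hi => by
  rw [mem_pos] at *; exact h hi

theorem neg_mono {F G : Finset (Vx ι)} (h : F ⊆ G) : neg F ⊆ neg G := fun i hi => by
  rw [mem_neg] at *; exact h hi

/-- The Bier complex of a lower set `K` of finite sets. -/
def bier (K : Finset (Finset ι)) (hK : ∀ C ∈ K, ∀ D ⊆ C, D ∈ K) :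
    PreAbstractSimplicialComplex (Vx ι) where
  faces := {F | F.Nonempty ∧ none ∉ F ∧ pos F ∈ K ∧ (neg F)ᶜ ∉ K ∧ Disjoint (pos F) (neg F)}
  isRelLowerSet_faces := by
    rintro F ⟨hne, hn, hp, hm, hd⟩
    refine ⟨hne, fun G hG hGne => ⟨hGne, fun h => hn (hG h), hK _ hp _ (pos_mono hG), ?_, ?_⟩⟩
    · intro h
      exact hm (hK _ h _ (compl_subset_compl.mpr (neg_mono hG)))
    · exact hd.mono (pos_mono hG) (neg_mono hG)

/-- positive copy of `A` -/
def up (A : Finset ι) : Finset (Vx ι) := A.image fun i => some (Sum.inl i)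

/-- negative copy of `A` -/
def dn (A : Finset ι) : Finset (Vx ι) := A.image fun i => some (Sum.inr i)

@[simp] theorem up_subset {A : Finset ι} {F : Finset (Vx ι)} : up A ⊆ F ↔ A ⊆ pos F := by
  simp [up, Finset.subset_iff]

@[simp] theorem dn_subset {A : Finset ι} {F : Finset (Vx ι)} : dn A ⊆ F ↔ A ⊆ neg F := by
  simp [dn, Finset.subset_iff]

@[simp] theorem pos_up (A : Finset ι) : pos (up A) = A := by ext; simp [up]
@[simp] theorem neg_up (A : Finset ι) : neg (up A) = ∅ := by ext; simp [up]
@[simp] theorem pos_dn (A : Finset ι) : pos (dn A) = ∅ := by ext; simp [dn]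
@[simp] theorem neg_dn (A : Finset ι) : neg (dn A) = A := by ext; simp [dn]
omit [Fintype ι] in
@[simp] theorem none_up (A : Finset ι) : none ∉ up A := by simp [up]
omit [Fintype ι] in
@[simp] theorem none_dn (A : Finset ι) : none ∉ dn A := by simp [dn]
@[simp] theorem pos_union (F G : Finset (Vx ι)) : pos (F ∪ G) = pos F ∪ pos G := by ext; simp
@[simp] theorem neg_union (F G : Finset (Vx ι)) : neg (F ∪ G) = neg F ∪ neg G := by ext; simp
@[simp] theorem pos_erase (F : Finset (Vx ι)) : pos (F.erase none) = pos F := by ext; simp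
@[simp] theorem neg_erase (F : Finset (Vx ι)) : neg (F.erase none) = neg F := by ext; simp


theorem mem_bier {K : Finset (Finset ι)} {hK : ∀ C ∈ K, ∀ D ⊆ C, D ∈ K} {F : Finset (Vx ι)} :
    F ∈ (bier K hK).faces ↔
      F.Nonempty ∧ none ∉ F ∧ pos F ∈ K ∧ (neg F)ᶜ ∉ K ∧ Disjoint (pos F) (neg F) := Iff.rfl

theorem mem_stellar {V : Type*} [DecidableEq V] {K : PreAbstractSimplicialComplex V}
    {A : Finset V} {w : V} {F : Finset V} :
    F ∈ (stellar K A w).faces ↔
      (F ∈ K.faces ∧ ¬ A ⊆ F) ∨ (w ∈ F ∧ ¬ A ⊆ F.erase w ∧ F.erase w ∪ A ∈ K.faces) := Iff.rfl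

/-- Adding a set `A` (not empty, not everything) to the lower set `K₀` changes the Bier complex
by a bistellar flip, i.e. both complexes have a common stellar subdivision. -/
theorem flip_eq {K₀ K : Finset (Finset ι)} (hK₀ : ∀ C ∈ K₀, ∀ D ⊆ C, D ∈ K₀)
    (hK : ∀ C ∈ K, ∀ D ⊆ C, D ∈ K) {A : Finset ι} (hA : A ∉ K₀) (hins : K = insert A K₀)
    (hmax : ∀ C ∈ K, A ⊆ C → C = A) :
    stellar (bier K₀ hK₀) (dn Aᶜ) none = stellar (bier K hK) (up A) none := by
  have hAK : A ∈ K := by rw [hins]; exact mem_insert_self _ _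
  have hsub : ∀ C, C ∈ K₀ → C ∈ K := fun C h => by rw [hins]; exact mem_insert_of_mem h
  have hmem : ∀ C, C ∈ K → C ≠ A → C ∈ K₀ := fun C h hne => by
    rw [hins] at h; exact (mem_insert.mp h).resolve_left hne
  apply PreAbstractSimplicialComplex.ext
  ext F
  rw [mem_stellar, mem_stellar]
  have e1 : (F ∈ (bier K₀ hK₀).faces ∧ ¬ dn Aᶜ ⊆ F) ↔ (F ∈ (bier K hK).faces ∧ ¬ up A ⊆ F) := by
    rw [mem_bier, mem_bier, dn_subset, up_subset]
    constructor
    · rintro ⟨⟨h1, h2, h3, h4, h5⟩, h6⟩
      refine ⟨⟨h1, h2, hsub _ h3, ?_, h5⟩, ?_⟩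
      · intro hc
        by_cases he : (neg F)ᶜ = A
        · apply h6; rw [← he, compl_compl]
        · exact h4 (hmem _ hc he)
      · intro hc
        have := hmax _ (hsub _ h3) hc
        rw [this] at h3
        exact hA h3
    · rintro ⟨⟨h1, h2, h3, h4, h5⟩, h6⟩
      refine ⟨⟨h1, h2, hmem _ h3 ?_, fun hc => h4 (hsub _ hc), h5⟩, ?_⟩
      · intro he; apply h6; rw [he]
      · intro hc
        apply h4
        refine hK A hAK _ ?_
        rw [← compl_compl A]
        exact compl_subset_compl.mpr hc
  have e2 : (none ∈ F ∧ ¬ dn Aᶜ ⊆ F.erase none ∧ F.erase none ∪ dn Aᶜ ∈ (bier K₀ hK₀).faces) ↔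
      (none ∈ F ∧ ¬ up A ⊆ F.erase none ∧ F.erase none ∪ up A ∈ (bier K hK).faces) := by
    refine and_congr_right fun hn => ?_
    rw [mem_bier, mem_bier, dn_subset, up_subset]
    simp only [pos_union, neg_union, pos_erase, neg_erase, pos_up, neg_up, pos_dn, neg_dn,
      union_empty, mem_union, mem_erase, none_up, none_dn, ne_eq, not_true_eq_false, false_and,
      or_false, not_false_eq_true, true_and]
    constructor
    · rintro ⟨h1, h2, h3, h4, h5⟩
      -- `pos F ⊊ A`, `neg F ⊊ Aᶜ`
      have hdj := Finset.disjoint_union_right.mp h5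
      have hpA : pos F ⊆ A := by
        have := Finset.disjoint_left.mp hdj.2
        intro x hx
        by_contra hxA
        exact this hx (mem_compl.mpr hxA)
      have hpne : pos F ≠ A := fun he => hA (he ▸ h3)
      have hc : (neg F ∪ Aᶜ)ᶜ = A := by
        by_contra hne
        apply h4
        refine hmem _ (hK A hAK _ ?_) hne
        intro x hx
        simp only [mem_compl, mem_union, not_or, not_not] at hx
        exact hx.2
      have hnA : neg F ⊆ Aᶜ := by
        intro x hx
        rw [mem_compl]
        intro hxA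
        rw [← hc] at hxA
        simp only [mem_compl, mem_union, not_or] at hxA
        exact hxA.1 hx
      have hne : (F.erase none ∪ up A).Nonempty := by
        by_contra hcon
        rw [not_nonempty_iff_eq_empty, union_eq_empty] at hcon
        have hAe : A = ∅ := by rw [← pos_up A, hcon.2]; ext; simp
        apply hpne
        rw [hAe] at hpA ⊢
        exact subset_empty.mp hpA
      refine ⟨fun hAp => hpne (Subset.antisymm hpA hAp), hne, ?_, ?_, ?_⟩
      · rw [union_eq_right.mpr hpA]; exact hAK
      · intro hcK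
        have hAsub : A ⊆ (neg F)ᶜ := by
          intro x hx; rw [mem_compl]; intro hxn
          exact (mem_compl.mp (hnA hxn)) hx
        have := hmax _ hcK hAsub
        apply h1
        rw [← this, compl_compl]
      · rw [union_eq_right.mpr hpA]
        rw [Finset.disjoint_left]
        intro x hx hxn
        exact (mem_compl.mp (hnA hxn)) hx
    · rintro ⟨h1, h2, h3, h4, h5⟩
      have hpA : pos F ∪ A = A := hmax _ h3 subset_union_right
      have hpA' : pos F ⊆ A := by rw [← hpA]; exact subset_union_left
      rw [hpA] at h5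
      have hnA : neg F ⊆ Aᶜ := by
        intro x hx; rw [mem_compl]; intro hxA
        exact Finset.disjoint_left.mp h5 hxA hx
      have hpne : pos F ≠ A := fun he => h1 (by rw [he])
      have hnne : ¬ Aᶜ ⊆ neg F := by
        intro hc
        apply h4
        have : neg F = Aᶜ := Subset.antisymm hnA hc
        rw [this, compl_compl]; exact hAK
      refine ⟨hnne, ?_, hmem _ (hK A hAK _ hpA') hpne, ?_, ?_⟩
      · by_contra hcon
        rw [not_nonempty_iff_eq_empty, union_eq_empty] at hcon
        apply hnne
        have hAe : Aᶜ = ∅ := by rw [← neg_dn Aᶜ, hcon.2]; ext; simp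
        rw [hAe]; exact empty_subset _
      · rw [union_eq_right.mpr hnA, compl_compl]; exact hA
      · rw [union_eq_right.mpr hnA]
        rw [Finset.disjoint_left]
        intro x hx hxn
        exact (mem_compl.mp hxn) (hpA' hx)
  rw [e1, e2]

theorem none_not_vertex (K : Finset (Finset ι)) (hK : ∀ C ∈ K, ∀ D ⊆ C, D ∈ K) :
    ({none} : Finset (Vx ι)) ∉ (bier K hK).faces := by
  rw [mem_bier]
  rintro ⟨-, h, -⟩
  simp at h

/-- The Bier complex of `{∅}` is the boundary of a simplex. -/
theorem bier_singleton [Nonempty ι] (hK : ∀ C ∈ ({∅} : Finset (Finset ι)), ∀ D ⊆ C, D ∈ ({∅} : Finset (Finset ι))) :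
    bier {∅} hK = simplexBoundary (dn univ) := by
  apply PreAbstractSimplicialComplex.ext
  ext F
  rw [mem_bier]
  change _ ↔ F.Nonempty ∧ F ⊂ dn univ
  refine and_congr_right fun hne => ?_
  simp only [mem_singleton]
  rw [ssubset_iff_subset_ne]
  constructor
  · rintro ⟨h1, h2, h3, h4⟩
    refine ⟨?_, ?_⟩
    · intro x hx
      rcases x with _ | (i | i)
      · exact absurd hx h1
      · have : i ∈ pos F := by simpa using hx
        rw [h2] at this; simp at this
      · simp [dn]
    · rintro rfl
      simp at h3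
  · rintro ⟨h1, h2⟩
    refine ⟨?_, ?_, ?_, ?_⟩
    · intro h; have := h1 h; simp [dn] at this
    · ext i
      simp only [mem_pos, notMem_empty, iff_false]
      intro h; have := h1 h; simp [dn] at this
    · intro h
      apply h2
      refine Subset.antisymm h1 ?_
      rw [dn_subset]
      intro i _
      by_contra hi
      have : i ∈ (neg F)ᶜ := mem_compl.mpr hi
      rw [h] at this; simp at this
    · have : pos F = ∅ := by
        ext i
        simp only [mem_pos, notMem_empty, iff_false]
        intro h; have := h1 h; simp [dn] at this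
      rw [this]; exact disjoint_empty_left _

/-- Bier's theorem: Bier complexes are combinatorial spheres. -/
theorem bier_reachable [Nonempty ι] : ∀ (k : ℕ) (K : Finset (Finset ι))
    (hK : ∀ C ∈ K, ∀ D ⊆ C, D ∈ K), K.card = k → ∅ ∈ K → univ ∉ K →
    StellarReachable (simplexBoundary (dn (univ : Finset ι))) (bier K hK) := by
  intro k
  induction k with
  | zero =>
    intro K hK hc he
    rw [card_eq_zero] at hc
    rw [hc] at he; simp at he
  | succ k ih =>
    intro K hK hc he hu
    by_cases hsing : K = {∅}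
    · subst hsing
      rw [bier_singleton]
      exact Relation.ReflTransGen.refl
    · -- choose a maximal element
      obtain ⟨A, hAK, hmax⟩ := Finset.exists_maximal (s := K) ⟨∅, he⟩
      have hmax' : ∀ C ∈ K, A ⊆ C → C = A := fun C hC h => Subset.antisymm (hmax hC h) h
      have hAne : A ≠ ∅ := by
        intro hA
        apply hsing
        ext C
        rw [mem_singleton]
        constructor
        · intro hC
          have := hmax' C hC (by rw [hA]; exact empty_subset _)
          rw [this, hA]
        · rintro rfl; exact he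
      set K₀ := K.erase A with hK₀def
      have hK₀ : ∀ C ∈ K₀, ∀ D ⊆ C, D ∈ K₀ := by
        intro C hC D hD
        rw [hK₀def, mem_erase] at hC ⊢
        refine ⟨?_, hK _ hC.2 _ hD⟩
        rintro rfl
        exact hC.1 (hmax' _ hC.2 hD)
      have hins : K = insert A K₀ := (insert_erase hAK).symm
      have hA₀ : A ∉ K₀ := notMem_erase _ _
      have hcard : K₀.card = k := by rw [hK₀def, card_erase_of_mem hAK, hc]; rfl
      have he₀ : ∅ ∈ K₀ := mem_erase.mpr ⟨hAne.symm, he⟩
      have hu₀ : univ ∉ K₀ := fun h => hu (mem_of_mem_erase h)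
      have hAu : A ≠ univ := fun h => hu (h ▸ hAK)
      have hreach := ih K₀ hK₀ hcard he₀ hu₀
      have hflip := flip_eq hK₀ hK hA₀ hins hmax'
      have hcne : (Aᶜ : Finset ι).Nonempty := by
        rw [nonempty_iff_ne_empty]
        intro h
        apply hAu
        rw [← compl_compl A, h, compl_empty]
      refine (hreach.tail (c := stellar (bier K₀ hK₀) (dn Aᶜ) none) ?_).tail ?_
      · refine Or.inl ⟨dn Aᶜ, ?_, none, none_not_vertex _ _, rfl⟩
        rw [mem_bier]
        refine ⟨?_, none_dn _, ?_, ?_, ?_⟩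
        · simpa [dn] using hcne
        · rw [pos_dn]; exact he₀
        · rw [neg_dn, compl_compl]; exact hA₀
        · rw [pos_dn]; exact disjoint_empty_left _
      · refine Or.inr ⟨up A, ?_, none, none_not_vertex _ _, hflip⟩
        rw [mem_bier]
        refine ⟨?_, none_up _, ?_, ?_, ?_⟩
        · simpa [up, nonempty_iff_ne_empty] using hAne
        · rw [pos_up]; exact hAK
        · rw [neg_up, compl_empty]; exact hu
        · rw [neg_up]; exact disjoint_empty_right _

end Bier

section Transport

variable {V W : Type*} [DecidableEq V] [DecidableEq W]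

omit [DecidableEq V] in
theorem mem_map {K : PreAbstractSimplicialComplex V} {e : V → W} {F : Finset W} :
    F ∈ (K.map e).faces ↔ ∃ G ∈ K.faces, G.image e = F := Iff.rfl

omit [DecidableEq V] in
theorem image_mem_map {K : PreAbstractSimplicialComplex V} {e : V → W}
    (he : Function.Injective e) {F : Finset V} : F.image e ∈ (K.map e).faces ↔ F ∈ K.faces := by
  rw [mem_map]
  constructor
  · rintro ⟨G, hG, h⟩
    rwa [← (Finset.image_injective he) h]
  · intro h; exact ⟨F, h, rfl⟩

omit [DecidableEq V] in
theorem singleton_mem_map {K : PreAbstractSimplicialComplex V} {e : V → W}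
    (he : Function.Injective e) {v : V} : {e v} ∈ (K.map e).faces ↔ {v} ∈ K.faces := by
  rw [← image_singleton, image_mem_map he]

theorem stellar_map {K : PreAbstractSimplicialComplex V} {e : V → W}
    (he : Function.Injective e) (A : Finset V) (w : V) :
    (stellar K A w).map e = stellar (K.map e) (A.image e) (e w) := by
  apply PreAbstractSimplicialComplex.ext
  ext F
  rw [mem_map, mem_stellar]
  constructor
  · rintro ⟨G, hG, rfl⟩
    rw [mem_stellar] at hG
    rcases hG with ⟨h1, h2⟩ | ⟨h1, h2, h3⟩
    · left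
      exact ⟨(image_mem_map he).mpr h1, fun h => h2 ((image_subset_image_iff he).mp h)⟩
    · right
      refine ⟨mem_image_of_mem _ h1, ?_, ?_⟩
      · rw [← image_erase he, image_subset_image_iff he]; exact h2
      · rw [← image_erase he, ← image_union, image_mem_map he]; exact h3
  · rintro (⟨h1, h2⟩ | ⟨h1, h2, h3⟩)
    · obtain ⟨G, hG, rfl⟩ := h1
      exact ⟨G, Or.inl ⟨hG, fun h => h2 ((image_subset_image_iff he).mpr h)⟩, rfl⟩
    · obtain ⟨G, hG, hGe'⟩ := h3
      have hGe : G.image e = F.erase (e w) ∪ A.image e := hGe'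
      have hsub : F.erase (e w) ⊆ G.image e := by rw [hGe]; exact subset_union_left
      obtain ⟨H, hH, hHe⟩ := subset_image_iff.mp hsub
      refine ⟨insert w H, Or.inr ⟨mem_insert_self _ _, ?_, ?_⟩, ?_⟩
      all_goals
        have hwH : w ∉ H := by
          intro h
          have := mem_image_of_mem e h
          rw [hHe] at this
          simp at this
      · rw [erase_insert hwH]
        intro h
        apply h2
        rw [← hHe]
        exact image_subset_image h
      · rw [erase_insert hwH]
        have : H ∪ A = G := by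
          apply image_injective he
          rw [image_union, hHe, hGe]
        rw [this]; exact hG
      · rw [image_insert, hHe, insert_erase h1]

theorem step_map {K L : PreAbstractSimplicialComplex V} {e : V → W}
    (he : Function.Injective e) (h : StellarStep K L) : StellarStep (K.map e) (L.map e) := by
  obtain ⟨A, hA, w, hw, rfl⟩ := h
  refine ⟨A.image e, (image_mem_map he).mpr hA, e w, ?_, ?_⟩
  · rw [singleton_mem_map he]; exact hw
  · exact stellar_map he A w

theorem reachable_map {K L : PreAbstractSimplicialComplex V} {e : V → W}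
    (he : Function.Injective e) (h : StellarReachable K L) :
    StellarReachable (K.map e) (L.map e) := by
  induction h with
  | refl => exact Relation.ReflTransGen.refl
  | tail _ hstep ih =>
    refine Relation.ReflTransGen.tail ih ?_
    rcases hstep with h | h
    · exact Or.inl (step_map he h)
    · exact Or.inr (step_map he h)

omit [DecidableEq V] in
theorem simplexBoundary_map {σ : Finset V} {e : V → W} (he : Function.Injective e) :
    (simplexBoundary σ).map e = simplexBoundary (σ.image e) := by
  apply PreAbstractSimplicialComplex.ext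
  ext F
  rw [mem_map]
  constructor
  · rintro ⟨G, ⟨hG1, hG2⟩, rfl⟩
    exact ⟨hG1.image e, (image_ssubset_image he).mpr hG2⟩
  · rintro ⟨h1, h2⟩
    obtain ⟨G, hG, rfl⟩ := subset_image_iff.mp h2.1
    exact ⟨G, ⟨(image_nonempty).mp h1, (image_ssubset_image he).mp h2⟩, rfl⟩

end Transport

section Family

/-- The ten triangles of the six-vertex triangulation of the projective plane. -/
def tri : Finset (Finset (Fin 6)) :=
  {{0, 1, 2}, {0, 1, 3}, {0, 2, 4}, {0, 3, 5}, {0, 4, 5}, {1, 2, 5}, {1, 3, 4}, {1, 4, 5},
    {2, 3, 4}, {2, 3, 5}}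

theorem tri_card : ∀ T ∈ tri, T.card = 3 := by decide +kernel

theorem tri_pair : ∀ i : Fin 6, ∃ T ∈ tri, 0 ∈ T ∧ i ∈ T := by decide +kernel

theorem tri_dual : ∀ D : Finset (Fin 6), (∀ T ∈ tri, ¬ T ⊆ D) ↔ ¬ (∀ T ∈ tri, ¬ T ⊆ Dᶜ) := by
  decide +kernel

theorem tri_count (i : Fin 6) : (tri.filter fun T => i ∈ T).card = 5 := by
  revert i; decide +kernel

theorem tri_count' (i : Fin 6) : (tri.filter fun T => ¬ i ∈ T).card = 5 := by
  revert i; decide +kernel

/-- signed sum -/
def ssum {α : Type*} [Fintype α] [DecidableEq α] (c : α → ℝ) (A : Finset α) : ℝ :=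
  ∑ i, if i ∈ A then c i else - c i

theorem sum_tri (a : Fin 6 → ℝ) : ∑ T ∈ tri, ssum a T = 0 := by
  unfold ssum
  rw [Finset.sum_comm]
  refine Finset.sum_eq_zero fun i _ => ?_
  rw [Finset.sum_ite, Finset.sum_const, Finset.sum_const, tri_count, tri_count']
  simp

theorem ssum_compl {α : Type*} [Fintype α] [DecidableEq α] (c : α → ℝ) (A : Finset α) :
    ssum c Aᶜ = - ssum c A := by
  unfold ssum
  rw [← Finset.sum_neg_distrib]
  refine Finset.sum_congr rfl fun i _ => ?_
  by_cases h : i ∈ A <;> simp [h]

theorem ssum_disjSum {k : ℕ} (c : Fin 6 ⊕ Fin k → ℝ) (T : Finset (Fin 6)) (D : Finset (Fin k)) :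
    ssum c (T.disjSum D) = ssum (fun i => c (Sum.inl i)) T + ssum (fun i => c (Sum.inr i)) D := by
  unfold ssum
  rw [Fintype.sum_sum_type]
  simp

/-- The weights of a realization vanish. -/
theorem weights_zero {k : ℕ} (c : Fin 6 ⊕ Fin k → ℝ)
    (h : ∀ T ∈ tri, ∀ D : Finset (Fin k), ∀ i ∈ T, ∃ r : ℝ, 0 < r ∧
      ssum c (T.disjSum D) = r * c (Sum.inl i)) : ∀ x, c x = 0 := by
  set a : Fin 6 → ℝ := fun i => c (Sum.inl i) with ha
  set b : Fin k → ℝ := fun i => c (Sum.inr i) with hb
  have key : ∀ T ∈ tri, ∀ D : Finset (Fin k), ∀ i ∈ T, ∃ r : ℝ, 0 < r ∧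
      ssum a T + ssum b D = r * a i := by
    intro T hT D i hi
    obtain ⟨r, hr, h1⟩ := h T hT D i hi
    exact ⟨r, hr, by rw [← ssum_disjSum c T D, h1]⟩
  -- the sign of `a i` is independent of `i`
  have sgn : ∀ i, ∃ r : ℝ, 0 < r ∧ a i = r * a 0 := by
    intro i
    obtain ⟨T, hT, h0, hi⟩ := tri_pair i
    obtain ⟨r, hr, h1⟩ := key T hT ∅ 0 h0
    obtain ⟨r', hr', h2⟩ := key T hT ∅ i hi
    refine ⟨r / r', div_pos hr hr', ?_⟩
    rw [h1] at h2
    field_simp
    linarith
  -- each `ssum a T` has the sign of `a 0`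
  have trip : ∀ T ∈ tri, ∃ r : ℝ, 0 < r ∧ ssum a T = r * a 0 := by
    intro T hT
    have hTne : T.Nonempty := by
      rw [← card_pos, tri_card T hT]; norm_num
    obtain ⟨i, hi⟩ := hTne
    obtain ⟨q, hq, h0⟩ := sgn i
    obtain ⟨r, hr, h1⟩ := key T hT ∅ i hi
    obtain ⟨r', hr', h2⟩ := key T hT (∅ᶜ) i hi
    rw [ssum_compl] at h2
    refine ⟨(r + r') / 2 * q, by positivity, ?_⟩
    rw [h0] at h1 h2
    linarith
  have ha0 : a 0 = 0 := by
    choose! r hr h1 using trip
    have hs := sum_tri a
    rw [Finset.sum_congr rfl h1, ← Finset.sum_mul] at hs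
    have hpos : 0 < ∑ T ∈ tri, r T := Finset.sum_pos hr ⟨{0, 1, 2}, by decide⟩
    rcases mul_eq_zero.mp hs with h | h
    · exact absurd h hpos.ne'
    · exact h
  have haz : ∀ i, a i = 0 := by
    intro i
    obtain ⟨r, _, h⟩ := sgn i
    rw [h, ha0, mul_zero]
  have hbD : ∀ D : Finset (Fin k), ssum b D = 0 := by
    intro D
    obtain ⟨r, _, h1⟩ := key {0, 1, 2} (by decide) D 0 (by decide)
    have : ssum a {0, 1, 2} = 0 := by
      unfold ssum
      refine Finset.sum_eq_zero fun i _ => ?_
      simp [haz]
    rw [this, ha0, mul_zero, zero_add] at h1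
    exact h1
  have hbz : ∀ j, b j = 0 := by
    intro j
    have h1 := hbD {j}
    have h2 := hbD ∅
    have h3 : ssum b {j} - ssum b ∅ = 2 * b j := by
      unfold ssum
      rw [← Finset.sum_sub_distrib]
      rw [Finset.sum_eq_single j]
      · simp; ring
      · intro i _ hi; simp [hi]
      · simp
    linarith
  rintro (i | j)
  · exact haz i
  · exact hbz j

variable (k : ℕ)

/-- The self-dual complex on `Fin 6 ⊕ Fin k`: the sets containing none of the ten triangles. -/
def fam : Finset (Finset (Fin 6 ⊕ Fin k)) :=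
  univ.filter fun C => ∀ T ∈ tri, ¬ T.image Sum.inl ⊆ C

theorem mem_fam {C : Finset (Fin 6 ⊕ Fin k)} :
    C ∈ fam k ↔ ∀ T ∈ tri, ¬ T.image Sum.inl ⊆ C := by simp [fam]

theorem fam_lower : ∀ C ∈ fam k, ∀ D ⊆ C, D ∈ fam k := by
  intro C hC D hD
  rw [mem_fam] at *
  exact fun T hT h => hC T hT (h.trans hD)

theorem fam_dual (C : Finset (Fin 6 ⊕ Fin k)) : C ∈ fam k ↔ Cᶜ ∉ fam k := by
  rw [mem_fam, mem_fam]
  have h1 : ∀ C : Finset (Fin 6 ⊕ Fin k), ∀ T : Finset (Fin 6),
      T.image Sum.inl ⊆ C ↔ T ⊆ univ.filter fun i => Sum.inl i ∈ C := by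
    intro C T
    simp [Finset.subset_iff]
  have h2 : (univ.filter fun i : Fin 6 => (Sum.inl i : Fin 6 ⊕ Fin k) ∈ Cᶜ) =
      (univ.filter fun i => Sum.inl i ∈ C)ᶜ := by
    ext i; simp
  simp only [h1, h2]
  exact tri_dual _

theorem fam_small {C : Finset (Fin 6 ⊕ Fin k)} (h : C.card ≤ 2) : C ∈ fam k := by
  rw [mem_fam]
  intro T hT hsub
  have := card_le_card hsub
  rw [card_image_of_injective _ Sum.inl_injective, tri_card T hT] at this
  omega

end Family

section Geometry

variable {E : Type*} [AddCommGroup E] [Module ℝ E] [TopologicalSpace E]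

/-- A nonempty proper exposed face of a centrally symmetric set is cut out by a functional with
positive maximum. -/
theorem exposed_functional {P Q : Set E} (hsymm : ∀ x ∈ P, -x ∈ P) (hexp : IsExposed ℝ P Q)
    (hne : Q.Nonempty) (hQP : Q ≠ P) :
    ∃ (l : StrongDual ℝ E) (M : ℝ), 0 < M ∧ (∀ x ∈ P, l x ≤ M) ∧ Q = {x ∈ P | l x = M} := by
  obtain ⟨l, hl⟩ := hexp hne
  obtain ⟨q, hq⟩ := hne
  have hqP : q ∈ P ∧ ∀ y ∈ P, l y ≤ l q := by rw [hl] at hq; exact hq
  have hQ : Q = {x ∈ P | l x = l q} := by
    rw [hl]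
    ext x
    constructor
    · rintro ⟨hx, h⟩
      exact ⟨hx, le_antisymm (hqP.2 x hx) (h q hqP.1)⟩
    · rintro ⟨hx, h⟩
      exact ⟨hx, fun y hy => by rw [h]; exact hqP.2 y hy⟩
  refine ⟨l, l q, ?_, hqP.2, hQ⟩
  have h0 : 0 ≤ l q := by
    have := hqP.2 (-q) (hsymm q hqP.1)
    rw [map_neg] at this
    linarith
  rcases h0.lt_or_eq with h | h
  · exact h
  · exfalso
    apply hQP
    rw [hQ]
    ext x
    constructor
    · exact fun hx => hx.1
    · intro hx
      refine ⟨hx, le_antisymm (hqP.2 x hx) ?_⟩
      have := hqP.2 (-x) (hsymm x hx)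
      rw [map_neg] at this
      linarith

omit [TopologicalSpace E] in
theorem neg_extreme {P : Set E} (hsymm : ∀ x ∈ P, -x ∈ P) {x : E}
    (hx : x ∈ P.extremePoints ℝ) : -x ∈ P.extremePoints ℝ := by
  rw [mem_extremePoints] at hx ⊢
  refine ⟨hsymm x hx.1, fun y hy z hz hyz => ?_⟩
  have := hx.2 (-y) (hsymm y hy) (-z) (hsymm z hz) ?_
  · exact ⟨by rw [← this.1, neg_neg], by rw [← this.2, neg_neg]⟩
  · obtain ⟨a, b, ha, hb, hab, h⟩ := hyz
    refine ⟨a, b, ha, hb, hab, ?_⟩
    rw [smul_neg, smul_neg, ← neg_add, h, neg_neg]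

end Geometry

/-- The complex on natural number labels. -/
noncomputable def label (k : ℕ) : Vx (Fin 6 ⊕ Fin k) → ℕ := fun x => (Finite.equivFin _ x).val

theorem label_inj (k : ℕ) : Function.Injective (label k) := fun _ _ h =>
  (Finite.equivFin _).injective (Fin.ext h)

/-- The symmetric sphere. -/
noncomputable def sph (k : ℕ) : PreAbstractSimplicialComplex ℕ :=
  (bier (fam k) (fam_lower k)).map (label k)

/-- A face of the Bier complex from signs. -/
theorem face_mem {k : ℕ} {A B : Finset (Fin 6 ⊕ Fin k)} (hA : A ∈ fam k) (hB : B ∈ fam k)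
    (hd : Disjoint A B) (hne : (A ∪ B).Nonempty) :
    up A ∪ dn B ∈ (bier (fam k) (fam_lower k)).faces := by
  rw [mem_bier]
  refine ⟨?_, ?_, ?_, ?_, ?_⟩
  · obtain ⟨x, hx⟩ := hne
    rcases mem_union.mp hx with h | h
    · exact ⟨some (Sum.inl x), mem_union_left _ (by simpa [up] using h)⟩
    · exact ⟨some (Sum.inr x), mem_union_right _ (by simpa [dn] using h)⟩
  · simp
  · simpa using hA
  · simp only [neg_union, neg_up, neg_dn, empty_union]
    exact (fam_dual k B).mp hB
  · simpa using hd

theorem vertex_iff {k : ℕ} {x : Vx (Fin 6 ⊕ Fin k)} :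
    {x} ∈ (bier (fam k) (fam_lower k)).faces ↔ x ≠ none := by
  constructor
  · intro h hx
    rw [hx] at h
    exact none_not_vertex _ _ h
  · intro h
    rcases x with _ | (i | i)
    · exact absurd rfl h
    · have := face_mem (A := {i}) (B := ∅) (fam_small k (by simp)) (fam_small k (by simp))
        (by simp) (by simp)
      simpa [up, dn] using this
    · have := face_mem (A := ∅) (B := {i}) (fam_small k (by simp)) (fam_small k (by simp))
        (by simp) (by simp)
      simpa [up, dn] using this

/-- the antipode -/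
def anti {α : Type*} : Vx α → Vx α := Option.map Sum.swap

/-- Any two distinct non-antipodal vertices span an edge. -/
theorem edge_mem {k : ℕ} {x y : Vx (Fin 6 ⊕ Fin k)} (hx : x ≠ none) (hy : y ≠ none)
    (hxy : x ≠ y) (ha : y ≠ anti x) : {x, y} ∈ (bier (fam k) (fam_lower k)).faces := by
  rcases x with _ | (i | i)
  · exact absurd rfl hx
  · rcases y with _ | (j | j)
    · exact absurd rfl hy
    · have := face_mem (A := {i, j}) (B := ∅) (fam_small k card_le_two) (fam_small k (by simp))
        (by simp) (by simp)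
      simpa [up, dn, image_insert] using this
    · have hij : i ≠ j := by
        rintro rfl; apply ha; simp [anti]
      have := face_mem (A := {i}) (B := {j}) (fam_small k (by simp)) (fam_small k (by simp))
        (by simpa using hij) (by simp)
      rw [up, dn, image_singleton, image_singleton] at this
      exact this
  · rcases y with _ | (j | j)
    · exact absurd rfl hy
    · have hij : j ≠ i := by
        rintro rfl; apply ha; simp [anti]
      have := face_mem (A := {j}) (B := {i}) (fam_small k (by simp)) (fam_small k (by simp))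
        (by simpa using hij) (by simp)
      rw [Finset.pair_comm]
      rw [up, dn, image_singleton, image_singleton] at this
      exact this
    · have := face_mem (A := ∅) (B := {i, j}) (fam_small k (by simp)) (fam_small k card_le_two)
        (by simp) (by simp)
      simpa [up, dn, image_insert] using this

theorem sph_vertex {k : ℕ} {x : Vx (Fin 6 ⊕ Fin k)} :
    {label k x} ∈ (sph k).faces ↔ x ≠ none := by
  rw [sph, singleton_mem_map (label_inj k), vertex_iff]

theorem sph_vertices (k : ℕ) : {v | {v} ∈ (sph k).faces} =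
    label k '' {x | x ≠ none} := by
  ext v
  constructor
  · intro h
    obtain ⟨G, hG, hGv⟩ := mem_map.mp h
    have hc : G.card = 1 := by
      rw [← card_image_of_injective G (label_inj k), hGv, card_singleton]
    obtain ⟨x, rfl⟩ := card_eq_one.mp hc
    rw [image_singleton, singleton_inj] at hGv
    exact ⟨x, vertex_iff.mp hG, hGv⟩
  · rintro ⟨x, hx, rfl⟩
    exact sph_vertex.mpr hx

/-- The main point: the sphere is not the boundary complex of a centrally symmetric polytope. -/
theorem not_iso {k d : ℕ} (hd : d < 6 + k) (P : Set (EuclideanSpace ℝ (Fin d)))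
    (hP : IsCSPolytope P) : ¬ IsoToBoundary (sph k) P := by
  rintro ⟨g, hbij, hface⟩
  have hsymm := hP.symm
  -- faces of the Bier complex give functionals
  have hfun : ∀ F : Finset (Vx (Fin 6 ⊕ Fin k)), F ∈ (bier (fam k) (fam_lower k)).faces →
      ∃ (l : StrongDual ℝ (EuclideanSpace ℝ (Fin d))) (M : ℝ), 0 < M ∧ (∀ x ∈ P, l x ≤ M) ∧
        (∀ x : Vx (Fin 6 ⊕ Fin k), x ≠ none → (x ∈ F ↔ l (g (label k x)) = M)) := by
    intro F hF
    have hF' : F.image (label k) ∈ (sph k).faces := (image_mem_map (label_inj k)).mpr hF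
    have hv : ∀ v ∈ F.image (label k), {v} ∈ (sph k).faces := by
      intro v hv
      exact ((sph k).isRelLowerSet_faces hF').2 (singleton_subset_iff.mpr hv)
        (singleton_nonempty v)
    obtain ⟨Q, hexp, hne, hQP, himg⟩ := (hface _ ((sph k).isRelLowerSet_faces hF').1 hv).mp hF'
    obtain ⟨l, M, hM, hle, hQ⟩ := exposed_functional hsymm hexp hne hQP
    refine ⟨l, M, hM, hle, fun x hx => ?_⟩
    have hxv : {label k x} ∈ (sph k).faces := sph_vertex.mpr hx
    have hxe : g (label k x) ∈ P.extremePoints ℝ := hbij.mapsTo hxv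
    constructor
    · intro hxF
      have : g (label k x) ∈ P.extremePoints ℝ ∩ Q := by
        rw [← himg]
        exact ⟨label k x, by simpa using ⟨x, hxF, rfl⟩, rfl⟩
      rw [hQ] at this
      exact this.2.2
    · intro hlx
      have : g (label k x) ∈ g '' (F.image (label k) : Finset ℕ) := by
        rw [himg, hQ]
        exact ⟨hxe, extremePoints_subset hxe, hlx⟩
      obtain ⟨v, hvF, hvg⟩ := this
      have hvF' : v ∈ F.image (label k) := by exact_mod_cast hvF
      have := hbij.injOn (hv v hvF') hxv hvg
      rw [this, mem_image] at hvF'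
      obtain ⟨y, hy, hyx⟩ := hvF'
      rw [← label_inj k hyx]; exact hy
  -- antipodal vertices correspond
  have hanti : ∀ i : Fin 6 ⊕ Fin k, g (label k (some (Sum.inr i))) =
      - g (label k (some (Sum.inl i))) := by
    intro i
    set x : Vx (Fin 6 ⊕ Fin k) := some (Sum.inl i) with hx
    have hxn : x ≠ none := by simp [hx]
    have hxv : {label k x} ∈ (sph k).faces := sph_vertex.mpr hxn
    have hxe : g (label k x) ∈ P.extremePoints ℝ := hbij.mapsTo hxv
    obtain ⟨v, hv, hvg⟩ := hbij.surjOn (neg_extreme hsymm hxe)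
    rw [sph_vertices] at hv
    obtain ⟨y, hyn, rfl⟩ := hv
    by_cases hya : y = anti x
    · rw [hya] at hvg
      rw [← hvg]
      simp [anti, hx]
    · exfalso
      by_cases hxy : x = y
      · rw [← hxy] at hvg
        obtain ⟨l, M, hM, -, hl⟩ := hfun {x} (vertex_iff.mpr hxn)
        have h1 := (hl x hxn).mp (mem_singleton_self _)
        have h2 : l (g (label k x)) = l (- g (label k x)) := by rw [← hvg]
        rw [map_neg] at h2
        linarith
      · obtain ⟨l, M, hM, -, hl⟩ := hfun {x, y} (edge_mem hxn hyn hxy hya)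
        have h1 := (hl x hxn).mp (by simp)
        have h2 := (hl y hyn).mp (by simp)
        rw [hvg, map_neg] at h2
        linarith
  -- a linear dependency
  set v : Fin 6 ⊕ Fin k → EuclideanSpace ℝ (Fin d) := fun i => g (label k (some (Sum.inl i)))
    with hvdef
  have hdep : ¬ LinearIndependent ℝ v := by
    intro h
    have := h.fintype_card_le_finrank
    simp at this
    omega
  rw [Fintype.not_linearIndependent_iff] at hdep
  obtain ⟨c, hc, i₀, hi₀⟩ := hdep
  apply hi₀
  refine weights_zero c ?_ i₀
  intro T hT D i hi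
  set A : Finset (Fin 6 ⊕ Fin k) := T.disjSum D with hAdef
  set x : Fin 6 ⊕ Fin k := Sum.inl i with hxdef
  have hxA : x ∈ A := by simp [hAdef, hxdef, hi]
  have hA : A ∉ fam k := by
    rw [mem_fam]
    push Not
    refine ⟨T, hT, ?_⟩
    intro y hy
    obtain ⟨j, hj, rfl⟩ := mem_image.mp hy
    simp [hAdef, hj]
  have hAx : A.erase x ∈ fam k := by
    rw [mem_fam]
    intro T' hT' hsub
    have hsub' : T' ⊆ T.erase i := by
      intro j hj
      have := hsub (mem_image_of_mem Sum.inl hj)
      rw [mem_erase] at this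
      rw [mem_erase]
      refine ⟨fun h => this.1 (by rw [h]), ?_⟩
      simpa [hAdef] using this.2
    have h1 := card_le_card hsub'
    rw [tri_card T' hT', card_erase_of_mem hi, tri_card T hT] at h1
    omega
  have hAc : Aᶜ ∈ fam k := by
    rw [fam_dual, compl_compl]; exact hA
  have hF := face_mem (A := A.erase x) (B := Aᶜ) hAx hAc
    (Disjoint.mono_left (erase_subset _ _) disjoint_compl_right)
    (by
      obtain ⟨i', hi'⟩ : ∃ i', i' ≠ i ∧ i' ∈ T := by
        by_contra hcon
        push Not at hcon
        have : T ⊆ {i} := fun j hj => by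
          rw [mem_singleton]; by_contra h; exact hcon j h hj
        have := card_le_card this
        rw [tri_card T hT] at this
        simp at this
      exact ⟨Sum.inl i', mem_union_left _ (mem_erase.mpr ⟨fun h => hi'.1 (Sum.inl_injective h),
        by simp [hAdef, hi'.2]⟩)⟩)
  obtain ⟨l, M, hM, hle, hl⟩ := hfun _ hF
  have hpos : ∀ j, (j ∈ A.erase x ↔ l (v j) = M) := by
    intro j
    rw [← hl (some (Sum.inl j)) (by simp)]
    simp [up, dn]
  have hneg : ∀ j, (j ∈ Aᶜ ↔ l (v j) = -M) := by
    intro j
    have := hl (some (Sum.inr j)) (by simp)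
    rw [hanti j, map_neg, neg_eq_iff_eq_neg] at this
    rw [← this]
    simp [up, dn]
  have hPv : ∀ j, v j ∈ P := fun j =>
    extremePoints_subset (hbij.mapsTo (sph_vertex.mpr (by simp)))
  have hlt : l (v x) < M := by
    refine lt_of_le_of_ne (hle _ (hPv x)) ?_
    intro h
    have := (hpos x).mpr h
    simp at this
  have hsum : ∑ j, c j * l (v j) = 0 := by
    have := congrArg l hc
    simpa [map_sum] using this
  have hval : ∀ j, c j * l (v j) = M * (if j ∈ A then c j else - c j) -
      (if j = x then c x * (M - l (v x)) else 0) := by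
    intro j
    by_cases hjx : j = x
    · subst hjx
      simp [hxA]; ring
    · by_cases hjA : j ∈ A
      · have := (hpos j).mp (mem_erase.mpr ⟨hjx, hjA⟩)
        simp [hjx, hjA, this]; ring
      · have := (hneg j).mp (mem_compl.mpr hjA)
        simp [hjx, hjA, this]; ring
  rw [Finset.sum_congr rfl fun j _ => hval j, Finset.sum_sub_distrib, ← Finset.mul_sum,
    Finset.sum_ite_eq' univ x] at hsum
  simp only [mem_univ, if_true] at hsum
  refine ⟨(M - l (v x)) / M, div_pos (by linarith) hM, ?_⟩
  have : M * ssum c A = c x * (M - l (v x)) := by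
    unfold ssum; linarith
  field_simp
  linarith

/-- The involution on labels. -/
noncomputable def phi (k : ℕ) : ℕ → ℕ := fun v => label k (anti (Function.invFun (label k) v))

theorem phi_label {k : ℕ} (x : Vx (Fin 6 ⊕ Fin k)) : phi k (label k x) = label k (anti x) := by
  unfold phi
  rw [Function.leftInverse_invFun (label_inj k) x]

theorem anti_anti {α : Type*} (x : Vx α) : anti (anti x) = x := by
  rcases x with _ | (i | i) <;> rfl

theorem pos_anti {k : ℕ} (G : Finset (Vx (Fin 6 ⊕ Fin k))) : pos (G.image anti) = neg G := by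
  ext i
  rw [mem_pos, mem_neg, mem_image]
  constructor
  · rintro ⟨y, hy, h⟩
    have : y = anti (some (Sum.inl i)) := by rw [← h, anti_anti]
    rw [this] at hy; exact hy
  · intro h; exact ⟨_, h, rfl⟩

theorem neg_anti {k : ℕ} (G : Finset (Vx (Fin 6 ⊕ Fin k))) : neg (G.image anti) = pos G := by
  ext i
  rw [mem_pos, mem_neg, mem_image]
  constructor
  · rintro ⟨y, hy, h⟩
    have : y = anti (some (Sum.inr i)) := by rw [← h, anti_anti]
    rw [this] at hy; exact hy
  · intro h; exact ⟨_, h, rfl⟩

theorem anti_face {k : ℕ} {G : Finset (Vx (Fin 6 ⊕ Fin k))}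
    (hG : G ∈ (bier (fam k) (fam_lower k)).faces) :
    G.image anti ∈ (bier (fam k) (fam_lower k)).faces := by
  rw [mem_bier] at *
  obtain ⟨h1, h2, h3, h4, h5⟩ := hG
  refine ⟨h1.image _, ?_, ?_, ?_, ?_⟩
  · intro h
    obtain ⟨y, hy, hya⟩ := mem_image.mp h
    have : y = anti none := by rw [← hya, anti_anti]
    rw [this] at hy
    exact h2 hy
  · rw [pos_anti, fam_dual]; exact h4
  · rw [neg_anti, ← fam_dual]; exact h3
  · rw [pos_anti, neg_anti]; exact h5.symm

theorem image_phi {k : ℕ} (G : Finset (Vx (Fin 6 ⊕ Fin k))) :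
    (G.image (label k)).image (phi k) = (G.image anti).image (label k) := by
  rw [image_image, image_image]
  refine image_congr fun x _ => ?_
  simp [phi_label]

theorem sph_symmetric (k : ℕ) : IsSymmetricSphere (k + 4) (sph k) (phi k) where
  sphere := by
    refine ⟨(dn univ).image (label k), ?_, ?_⟩
    · rw [card_image_of_injective _ (label_inj k), dn, card_image_of_injective]
      · simp; omega
      · intro i j h; simpa using h
    · rw [← simplexBoundary_map (label_inj k)]
      refine reachable_map (label_inj k) ?_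
      refine bier_reachable _ (fam k) (fam_lower k) rfl (fam_small k (by simp)) ?_
      have h : (∅ : Finset (Fin 6 ⊕ Fin k)) ∈ fam k := fam_small k (by simp)
      rw [fam_dual, compl_empty] at h
      exact h
  map_face := by
    intro F hF
    obtain ⟨G, hG, rfl⟩ := mem_map.mp hF
    rw [image_phi]
    exact (image_mem_map (label_inj k)).mpr (anti_face hG)
  involutive := by
    intro v hv
    have hv' : v ∈ {v | {v} ∈ (sph k).faces} := hv
    rw [sph_vertices] at hv'
    obtain ⟨x, -, rfl⟩ := hv'
    rw [phi_label, phi_label, anti_anti]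
  free := by
    intro F hF
    obtain ⟨G, hG, rfl⟩ := mem_map.mp hF
    rw [image_phi, disjoint_image (label_inj k)]
    rw [mem_bier] at hG
    obtain ⟨-, h2, -, -, h5⟩ := hG
    rw [Finset.disjoint_left] at h5 ⊢
    intro x hx hxG
    rcases x with _ | (i | i)
    · exact h2 hxG
    · have h6 : i ∈ pos (G.image anti) := mem_pos.mpr hx
      rw [pos_anti] at h6
      exact h5 (mem_pos.mpr hxG) h6
    · have h6 : i ∈ neg (G.image anti) := mem_neg.mpr hx
      rw [neg_anti] at h6
      exact h5 h6 (mem_neg.mpr hxG)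

theorem sph_card (k : ℕ) : {v | {v} ∈ (sph k).faces}.ncard = 2 * (k + 4) + 4 := by
  rw [sph_vertices, Set.ncard_image_of_injective _ (label_inj k)]
  have : {x : Vx (Fin 6 ⊕ Fin k) | x ≠ none} = Set.range some := by
    ext x
    rcases x with _ | x <;> simp
  rw [this, ← Set.image_univ, Set.ncard_image_of_injective _ (Option.some_injective _),
    Set.ncard_univ]
  simp
  ring

/-- For every `n ≥ 4` there is a symmetric `n`-sphere with exactly `2n+4` vertices that is not
isomorphic to the boundary complex of any centrally symmetric `(n+1)`-dimensional polytope. -/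
theorem result : ∀ n : ℕ, 4 ≤ n →
    ∃ (S : PreAbstractSimplicialComplex ℕ) (φ : ℕ → ℕ),
      IsSymmetricSphere n S φ ∧ {v | {v} ∈ S.faces}.ncard = 2 * n + 4 ∧
      ∀ P : Set (EuclideanSpace ℝ (Fin (n + 1))), IsCSPolytope P → ¬ IsoToBoundary S P := by
  intro n hn
  obtain ⟨k, rfl⟩ : ∃ k, n = k + 4 := ⟨n - 4, by omega⟩
  exact ⟨sph k, phi k, sph_symmetric k, sph_card k, fun P hP => not_iso (by omega) P hP⟩

end Pool.Agent.Results.MP_ca8007_co.NonPolytopalSymmetric
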